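import Pool.Agent.H27.ZF.TA

/-!
Row HTC of board zf: Hadamard's three circles.
-/

set_option autoImplicit false

namespace Pool.Agent.H40.ZF

open Metric Bornology

/-- Hadamard's three circles theorem around `0`. -/
theorem three_circles {G : ℂ → ℂ} {r R : ℝ} (hr : 0 < r) (hrR : r < R)
    (hG : Differentiable ℂ G) {a b : ℝ}
    (ha : ∀ z : ℂ, ‖z‖ = r → ‖G z‖ ≤ a) (hbd : ∀ z : ℂ, ‖z‖ ≤ R → ‖G z‖ ≤ b) {z : ℂ}
    (hz : r ≤ ‖z‖) (hzR : ‖z‖ ≤ R) :
    ‖G z‖ ≤ a ^ (1 - (Real.log ‖z‖ - Real.log r) / (Real.log R - Real.log r)) *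
      b ^ ((Real.log ‖z‖ - Real.log r) / (Real.log R - Real.log r)) := by
  have hR : 0 < R := hr.trans hrR
  have hz0 : 0 < ‖z‖ := hr.trans_le hz
  have hzne : z ≠ 0 := norm_pos_iff.mp hz0
  have hul : Real.log r < Real.log R := Real.log_lt_log hr hrR
  have hnexp : ∀ w : ℂ, ‖Complex.exp w‖ = Real.exp w.re := fun w => Complex.norm_exp w
  have hd : DiffContOnCl ℂ (fun w => G (Complex.exp w))
      (Complex.HadamardThreeLines.verticalStrip (Real.log r) (Real.log R)) :=
    (hG.comp Complex.differentiable_exp).diffContOnCl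
  have h3 := Complex.HadamardThreeLines.norm_le_interp_of_mem_verticalClosedStrip' (z := Complex.log z)
    (a := a) (b := b) hul (f := fun w => G (Complex.exp w)) ?_ hd ?_ ?_ ?_
  · simpa [Complex.exp_log hzne, Complex.log_re] using h3
  · constructor
    · simpa [Complex.log_re] using Real.log_le_log hr hz
    · simpa [Complex.log_re] using Real.log_le_log hz0 hzR
  · refine ⟨b, ?_⟩
    rintro _ ⟨w, hw, rfl⟩
    apply hbd
    rw [hnexp]
    calc Real.exp w.re ≤ Real.exp (Real.log R) := Real.exp_le_exp.mpr hw.2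
      _ = R := Real.exp_log hR
  · intro w hw
    apply ha
    have : w.re = Real.log r := hw
    rw [hnexp, this, Real.exp_log hr]
  · intro w hw
    apply hbd
    have : w.re = Real.log R := hw
    rw [hnexp, this, Real.exp_log hR]

theorem rpow_mix {M1 M3 u v : ℝ} (h1 : 0 < M1) (h13 : M1 ≤ M3) (huv : u ≤ v) :
    M1 ^ (1 - u) * M3 ^ u ≤ M1 ^ (1 - v) * M3 ^ v := by
  have h3 : 0 < M3 := h1.trans_le h13
  have e1 : M3 ^ v = M3 ^ u * M3 ^ (v - u) := by
    rw [← Real.rpow_add h3]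
    congr 1
    ring
  have e2 : M1 ^ (1 - u) = M1 ^ (1 - v) * M1 ^ (v - u) := by
    rw [← Real.rpow_add h1]
    congr 1
    ring
  have e3 : M1 ^ (v - u) ≤ M3 ^ (v - u) := Real.rpow_le_rpow h1.le h13 (by linarith)
  have p1 : 0 ≤ M1 ^ (1 - v) := Real.rpow_nonneg h1.le _
  have p2 : 0 ≤ M3 ^ u := Real.rpow_nonneg h3.le _
  calc M1 ^ (1 - u) * M3 ^ u = (M1 ^ (1 - v) * M3 ^ u) * M1 ^ (v - u) := by rw [e2]; ring
    _ ≤ (M1 ^ (1 - v) * M3 ^ u) * M3 ^ (v - u) :=
        mul_le_mul_of_nonneg_left e3 (mul_nonneg p1 p2)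
    _ = M1 ^ (1 - v) * M3 ^ v := by rw [e1]; ring

/-- Row HTC. -/
theorem pf_HTC : Pool.Agent.H27.ZF.T_HTC := by
  intro r1 r2 r3 h1 h12 h23
  have h2 : 0 < r2 := h1.trans h12
  have h3 : 0 < r3 := h2.trans h23
  have l12 : Real.log r1 < Real.log r2 := Real.log_lt_log h1 h12
  have l23 : Real.log r2 < Real.log r3 := Real.log_lt_log h2 h23
  have l13 : 0 < Real.log r3 - Real.log r1 := by linarith
  obtain ⟨th, hth⟩ : ∃ th : ℝ, th = (Real.log r2 - Real.log r1) / (Real.log r3 - Real.log r1) :=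
    ⟨_, rfl⟩
  have th0 : 0 < th := by
    rw [hth]
    exact div_pos (by linarith) l13
  have th1 : th < 1 := by
    rw [hth, div_lt_one l13]
    linarith
  refine ⟨1 - th, by linarith, by linarith, ?_⟩
  intro D c M1 M3 hD hM1 hM13 hb1 hb3 s hs
  have hM3 : 0 < M3 := hM1.trans_le hM13
  have e : (1 : ℝ) - (1 - th) = th := by ring
  rw [e]
  rcases le_or_gt ‖s - c‖ r1 with hle | hgt
  · have k1 := rpow_mix (u := 0) hM1 hM13 th0.le
    have k2 : M1 ^ (1 - (0 : ℝ)) * M3 ^ (0 : ℝ) = M1 := by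
      rw [sub_zero, Real.rpow_one, Real.rpow_zero, mul_one]
    rw [k2] at k1
    exact (hb1 s hle).trans k1
  · have hG : Differentiable ℂ (fun w => D (c + w)) :=
      hD.comp (differentiable_id.const_add c)
    have k1 := three_circles (G := fun w => D (c + w)) h1 (h12.trans h23) hG (a := M1) (b := M3)
      (fun z hz => hb1 _ (by
        have e1 : c + z - c = z := by ring
        rw [e1]
        exact hz.le))
      (fun z hz => hb3 _ (by
        have e1 : c + z - c = z := by ring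
        rw [e1]
        exact hz)) (z := s - c) hgt.le (hs.trans h23.le)
    have e2 : c + (s - c) = s := by ring
    simp only [e2] at k1
    refine k1.trans (rpow_mix hM1 hM13 ?_)
    rw [hth]
    have hs0 : 0 < ‖s - c‖ := h1.trans hgt
    have l4 : Real.log ‖s - c‖ ≤ Real.log r2 := Real.log_le_log hs0 hs
    exact div_le_div_of_nonneg_right (by linarith) l13.le

end Pool.Agent.H40.ZF
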